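import Mathlib
import Pool.Agent.Helper82_NIB.Stmts

/-!
# NIB, module SEL: the selection theorem
-/

set_option autoImplicit false
set_option linter.unusedSectionVars false

open Finset Matrix

namespace Pool.Agent.NIB.H52

lemma one_le_KK3 (nC kap K : ℕ) : 1 ≤ KK3 nC kap K := by
  unfold KK3
  exact Nat.succ_le_of_lt (by positivity)

lemma lll_num (nC kap K1 K2 : ℕ) (lam : ℝ) (h : LLL2 nC kap K1 K2 lam) :
    4 * (KK3 nC kap K1 : ℝ) * (KK3 nC kap K2 : ℝ) * (4 * Real.exp (-lam)) ≤ 1 := by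
  unfold LLL2 at h
  unfold KK3
  push_cast
  have h0 : 0 ≤ ((nC : ℝ) + 2) ^ 2 * ((kap : ℝ) + 3) ^ 12 * ((K1 : ℝ) + 2) * ((K2 : ℝ) + 2) *
    Real.exp (-lam) := by positivity
  have h1 : 4 * (((nC : ℝ) + 2) * ((kap : ℝ) + 3) ^ 6 * ((K1 : ℝ) + 2)) *
      (((nC : ℝ) + 2) * ((kap : ℝ) + 3) ^ 6 * ((K2 : ℝ) + 2)) * (4 * Real.exp (-lam)) =
      16 * (((nC : ℝ) + 2) ^ 2 * ((kap : ℝ) + 3) ^ 12 * ((K1 : ℝ) + 2) * ((K2 : ℝ) + 2) *
    Real.exp (-lam)) := by ring
  have h2 : 64 * ((nC : ℝ) + 2) ^ 2 * ((kap : ℝ) + 3) ^ 12 * ((K1 : ℝ) + 2) * ((K2 : ℝ) + 2) *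
    Real.exp (-lam) = 64 * (((nC : ℝ) + 2) ^ 2 * ((kap : ℝ) + 3) ^ 12 * ((K1 : ℝ) + 2) *
    ((K2 : ℝ) + 2) * Real.exp (-lam)) := by ring
  rw [h1]
  rw [h2] at h
  linarith

theorem sel (LLLW : LllStmt) (SWT : SwtStmt) (SDET : SdetStmt) (SO4 : So4Stmt) (SO5 : So5Stmt)
    (SO6 : So6Stmt) (SO7 : So7Stmt) (SLOC : SlocStmt) (SCN1 : Scn1Stmt) (SCN2 : Scn2Stmt) :
    SelStmt := by
  intro V C J _ _ _ _ _ _ b de Lam h lam kap K1 K2 kp Mb hb hde hLam hlam hkp hMb hK1 hK2 hL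
  obtain ⟨hwt, -⟩ := SWT V C b de Lam h kap hb
  have he : 0 ≤ Real.exp (-lam) := (Real.exp_pos _).le
  haveI : DecidableEq (EI V C J) := Classical.decEq _
  obtain ⟨ω, -, hω⟩ := LLLW (Crd V C) (Val C) (EI V C J) b.wt (BE b kp Mb de Lam h lam)
    (WE b kp) (KK3 (Fintype.card C) kap K1) (KK3 (Fintype.card C) kap K2) (4 * Real.exp (-lam))
    hwt (fun e ω ω' => SLOC V C J b de Lam h lam kap kp Mb hb e ω ω')
    (SCN1 V C J b de Lam h kap K1 kp hb hK1) (SCN2 V C J b de Lam h kap K2 kp hb hK2)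
    (one_le_KK3 _ _ _) (one_le_KK3 _ _ _)
    (by
      rintro (⟨c, j⟩ | ⟨c, w⟩ | ⟨c, w⟩ | w)
      · have := SO4 V C b de Lam h (Mb c j) lam kap (kp c j) hb (hkp c j) (hMb c j)
          (by linarith) c
        exact le_trans this (by linarith)
      · exact SO5 V C b de Lam h lam kap hb hde hLam hlam c w
      · have := SO6 V C b de Lam h lam kap hb hde hLam (by linarith) c w
        exact le_trans this (by linarith)
      · have := SO7 V C b de Lam h lam kap hb (by linarith) w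
        exact le_trans this (by linarith))
    (lll_num _ _ _ _ _ hL)
  obtain ⟨d1, d2, d3, d4, d5, d6, d7⟩ := SDET V C b de Lam h kap hb ω
  refine ⟨fun c => b.sg c ω, fun c => b.ub c ω, fun c v => colOf (ω (.inr (c, v))) c,
    { sg01 := d1, ub01 := d2, sgx := d3, sgrow := d4, sglab := d5, sgdisj := d6, sgub := d7
      o4 := ?_, o5 := ?_, o6 := ?_, o7 := ?_ }⟩
  · intro c j
    have := hω (.inl (c, j))
    simp only [BE, Set.mem_setOf_eq, not_lt] at this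
    exact this
  · intro c w
    have := hω (.inr (.inl (c, w)))
    simp only [BE, Set.mem_setOf_eq, not_lt] at this
    exact this
  · intro c w
    have := hω (.inr (.inr (.inl (c, w))))
    simp only [BE, Set.mem_setOf_eq, not_lt] at this
    exact this
  · intro w
    have := hω (.inr (.inr (.inr w)))
    simp only [BE, Set.mem_setOf_eq, not_lt] at this
    exact this

end Pool.Agent.NIB.H52
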