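import Mathlib
import Pool.Agent.Helper82_NIB.Stmts

/-!
# NIB, module SLOC: the bad events depend only on the coordinates in `WE`
-/

set_option autoImplicit false
set_option linter.unusedSectionVars false

open Finset Matrix

namespace Pool.Agent.NIB.H52

section arc

variable {V : Type}

/-- Entries of the node matrix are zero or values at an arc at both nodes. -/
lemma mat_arc (w w' : V × Bool) : (∀ f : V → V → ℝ, mat f w w' = 0) ∨
    ∃ a : V × V, atn w a ∧ atn w' a ∧ ∀ f : V → V → ℝ, mat f w w' = f a.1 a.2 := by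
  rcases w with ⟨w, _ | _⟩ <;> rcases w' with ⟨w', _ | _⟩
  · exact Or.inl fun f => rfl
  · exact Or.inr ⟨(w', w), Or.inr rfl, Or.inl rfl, fun f => rfl⟩
  · exact Or.inr ⟨(w, w'), Or.inl rfl, Or.inr rfl, fun f => rfl⟩
  · exact Or.inl fun f => rfl

end arc

section loc

variable {V C : Type} [Fintype V] [DecidableEq V] [Fintype C] [DecidableEq C] (b : Bm V C)

lemma sg_zero (c : C) (ω : Crd V C → Val C) {u v : V} (h : b.x c u v = 0) :
    b.sg c ω u v = 0 := by
  unfold Bm.sg
  rw [if_neg]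
  intro h1
  exact h1.2.1 h

lemma sel_iff {c : C} {ω ω' : Crd V C → Val C} {a : V × V}
    (h : ∀ i ∈ b.dep c a, ω i = ω' i) : b.Sel c ω a ↔ b.Sel c ω' a := by
  have h1 : ω (.inl a) = ω' (.inl a) := h _ (by simp [Bm.dep])
  have h2 : ω (.inr (c, b.st c a.1)) = ω' (.inr (c, b.st c a.1)) := h _ (by simp [Bm.dep])
  have h3 : ω (.inr (c, a.2)) = ω' (.inr (c, a.2)) := h _ (by simp [Bm.dep])
  have h4 : ∀ a' ∈ b.blk c a, ω (.inl a') = ω' (.inl a') := fun a' ha' => h _ (by
    unfold Bm.dep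
    exact Finset.mem_union_right _ (Finset.mem_image_of_mem _ ha'))
  unfold Bm.Sel
  rw [h1, h2, h3]
  have h5 : (∀ a' ∈ b.blk c a, ¬ colOf (ω (.inl a')) c) ↔
      (∀ a' ∈ b.blk c a, ¬ colOf (ω' (.inl a')) c) :=
    forall_congr' fun a' => forall_congr' fun ha' => by rw [h4 a' ha']
  rw [h5]

lemma sg_congr {c : C} {ω ω' : Crd V C → Val C} {u v : V}
    (h : ∀ i ∈ b.dep c (u, v), ω i = ω' i) : b.sg c ω u v = b.sg c ω' u v := by
  unfold Bm.sg
  by_cases h1 : b.Sel c ω (u, v)
  · rw [if_pos h1, if_pos ((sel_iff b h).1 h1)]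
  · rw [if_neg h1, if_neg fun h2 => h1 ((sel_iff b h).2 h2)]

lemma ub_congr {c : C} {ω ω' : Crd V C → Val C} {u v : V}
    (h : ω (.inl (u, v)) = ω' (.inl (u, v))) : b.ub c ω u v = b.ub c ω' u v := by
  unfold Bm.ub
  rw [h]

variable {J : Type} (kp : C → J → V → V → ℝ)

lemma sg_eq_of_PE {e : EI V C J} {ω ω' : Crd V C → Val C} (h : ∀ i ∈ WE b kp e, ω i = ω' i)
    {c : C} {u v : V} (hp : b.x c u v ≠ 0 → (c, (u, v)) ∈ PE b kp e) :
    b.sg c ω u v = b.sg c ω' u v := by
  by_cases hx : b.x c u v = 0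
  · rw [sg_zero b c ω hx, sg_zero b c ω' hx]
  · refine sg_congr b fun i hi => h i ?_
    unfold WE
    exact Finset.mem_biUnion.2 ⟨(c, (u, v)), hp hx, hi⟩

lemma ub_eq_of_PE {e : EI V C J} {ω ω' : Crd V C → Val C} (h : ∀ i ∈ WE b kp e, ω i = ω' i)
    {c : C} {u v : V} (hp : (c, (u, v)) ∈ PE b kp e) :
    b.ub c ω u v = b.ub c ω' u v := by
  refine ub_congr b (h _ ?_)
  unfold WE
  exact Finset.mem_biUnion.2 ⟨(c, (u, v)), hp, by simp [Bm.dep]⟩

/-- Row sums at a node all of whose arcs are observed. -/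
lemma rs_eq_of_PE {e : EI V C J} {ω ω' : Crd V C → Val C} (h : ∀ i ∈ WE b kp e, ω i = ω' i)
    {c : C} {w : V × Bool}
    (hp : ∀ a : V × V, atn w a → b.x c a.1 a.2 ≠ 0 → (c, a) ∈ PE b kp e) :
    rs (b.sg c ω) w = rs (b.sg c ω') w := by
  unfold rs
  refine Finset.sum_congr rfl fun w' _ => ?_
  rcases mat_arc w w' with h0 | ⟨a, ha, _, h1⟩
  · rw [h0, h0]
  · rw [h1, h1]
    exact sg_eq_of_PE b kp h fun hx => hp a ha hx

end loc

theorem sloc : SlocStmt := by
  intro V C J _ _ _ _ b de Lam h lam kap kp Mb _ e ω ω' hW hω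
  rcases e with ⟨c, j⟩ | ⟨c, w⟩ | ⟨c, w⟩ | w
  · have h1 : dev b.th (b.xo c) (b.sg c ω) (kp c j) = dev b.th (b.xo c) (b.sg c ω') (kp c j) := by
      unfold dev
      refine Finset.sum_congr rfl fun u _ => Finset.sum_congr rfl fun v _ => ?_
      by_cases hk : kp c j u v = 0
      · rw [hk]
        simp
      · rw [sg_eq_of_PE b kp hW fun hx => by simp [PE, hx, hk]]
    simp only [BE, Set.mem_setOf_eq] at hω ⊢
    rw [← h1]
    exact hω
  · have h1 : ∀ w', mat (b.x c) w w' * Gf b.th (b.sg c ω) w' * mat (yv (b.ub c ω) (b.om c)) w w' =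
        mat (b.x c) w w' * Gf b.th (b.sg c ω') w' * mat (yv (b.ub c ω') (b.om c)) w w' := by
      intro w'
      by_cases hx : mat (b.x c) w w' = 0
      · rw [hx]
        simp
      · have h2 : rs (b.sg c ω) w' = rs (b.sg c ω') w' := by
          refine rs_eq_of_PE b kp hW fun a ha hxa => ?_
          simp only [PE, Finset.mem_filter, Finset.mem_univ, true_and]
          exact ⟨hxa, Or.inr ⟨w', hx, ha⟩⟩
        have h3 : mat (yv (b.ub c ω) (b.om c)) w w' = mat (yv (b.ub c ω') (b.om c)) w w' := by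
          rcases mat_arc w w' with h0 | ⟨a, ha, _, h4⟩
          · exact absurd (h0 _) hx
          · rw [h4, h4]
            rw [h4] at hx
            unfold yv
            rw [ub_eq_of_PE b kp hW (c := c) (u := a.1) (v := a.2) (by
              simp only [PE, Finset.mem_filter, Finset.mem_univ, true_and]
              exact ⟨hx, Or.inl ha⟩)]
        rw [h3]
        unfold Gf
        rw [h2]
    simp only [BE, Set.mem_setOf_eq] at hω ⊢
    simp only [h1] at hω
    exact hω
  · have h1 : ∀ w', mat (b.x c) w w' * mat (b.ub c ω) w w' =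
        mat (b.x c) w w' * mat (b.ub c ω') w w' := by
      intro w'
      by_cases hx : mat (b.x c) w w' = 0
      · rw [hx]
        simp
      · rcases mat_arc w w' with h0 | ⟨a, ha, _, h4⟩
        · exact absurd (h0 _) hx
        · rw [h4, h4, h4]
          rw [h4] at hx
          rw [ub_eq_of_PE b kp hW (c := c) (u := a.1) (v := a.2) (by
            simp only [PE, Finset.mem_filter, Finset.mem_univ, true_and]
            exact ⟨hx, ha⟩)]
    simp only [BE, Set.mem_setOf_eq] at hω ⊢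
    simp only [h1] at hω
    exact hω
  · have h1 : ∀ c, rs (b.sg c ω) w = rs (b.sg c ω') w := by
      intro c
      refine rs_eq_of_PE b kp hW fun a ha hxa => ?_
      simp only [PE, Finset.mem_filter, Finset.mem_univ, true_and]
      exact ⟨hxa, ha⟩
    simp only [BE, Set.mem_setOf_eq] at hω ⊢
    simp only [h1] at hω
    exact hω

end Pool.Agent.NIB.H52
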